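import Pool.Agent.Lib.MP_1a91b9_nuX.GL.Abs
import Pool.Agent.Lib.MP_1a91b9_nuX.GM.Sub
import Pool.Agent.Lib.MP_1a91b9_nuX.DB.Om
import Pool.Agent.Lib.MP_1a91b9_nuT.Nrm

/-!
# The Hecke character of the curve `y² = x³ + A x + B` of `CD` over `K`

`HDat f ps`: the function `ps` on the ideals of `𝓞 K` is the Hecke character of the curve: `ps P` is the
generator of `P` which acts on the torsion points of order prime to `P` as the Frobenius automorphisms at `P`;
`f` is a multiple of the conductor with the same prime divisors, which are the places of bad reduction.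
-/

set_option autoImplicit false

namespace Pool.Agent.Lib.MP_1a91b9_nuX

open NumberField IsDedekindDomain WeierstrassCurve Pool.Agent.Lib.MP_1a91b9_nuT

variable [CD]

/-- the Hecke datum of the curve -/
structure HDat (f : 𝓞 K) (ps : Ideal (𝓞 K) → 𝓞 K) : Prop where
  ne : f ≠ 0
  /-- `f` is divisible by a natural number at least three -/
  big : ∃ r : ℕ, 3 ≤ r ∧ (r : 𝓞 K) ∣ f
  one : ps 1 = 1
  mul : ∀ I J : Ideal (𝓞 K), ps (I * J) = ps I * ps J
  span : ∀ I : Ideal (𝓞 K), IsCoprime I (Ideal.span {f}) → Ideal.span {ps I} = I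
  zero : ∀ I : Ideal (𝓞 K), ¬ IsCoprime I (Ideal.span {f}) → ps I = 0
  ray : ∀ a : 𝓞 K, f ∣ a - 1 → ps (Ideal.span {a}) = a
  /-- the Frobenius automorphisms at `P` act on the torsion prime to `P` as `ps P` -/
  frob : ∀ [DecidableEq (AlgebraicClosure K)] (P : HeightOneSpectrum (𝓞 K)), f ∉ P.asIdeal →
    ∀ V : ValuationSubring (AlgebraicClosure K), GL.Abv P V →
    ∀ σ : AlgebraicClosure K ≃ₐ[K] AlgebraicClosure K, GL.IsFr V (Ideal.absNorm P.asIdeal) σ →
    ∀ (n : ℕ) (T : DB.Pt (AlgebraicClosure K)), V.valuation (n : AlgebraicClosure K) = 1 →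
      n • T = 0 → DB.ga σ T = DB.sm (AlgebraicClosure K) (ps P.asIdeal) T
  /-- the prime divisors of `f` are places of bad reduction -/
  bad : ∀ P : HeightOneSpectrum (𝓞 K), f ∈ P.asIdeal →
    ¬ ∃ C : VariableChange K, GM.GoodW (P.valuation K) (C • E K)

section
variable {f : 𝓞 K} {g : Ideal (𝓞 K) → 𝓞 K}

/-- a prime divisor of `f` divides `bad` -/
theorem HDat.good (h : HDat f g) (P : HeightOneSpectrum (𝓞 K)) (hP : f ∈ P.asIdeal) :
    ((CD.bad : ℤ) : 𝓞 K) ∈ P.asIdeal := by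
  by_contra hc
  refine h.bad P hP ⟨1, ?_⟩
  have hle : ∀ n : ℤ, P.valuation K (n : K) ≤ 1 := by
    intro n
    have h1 : P.valuation K (algebraMap (𝓞 K) K (n : 𝓞 K)) ≤ 1 := P.valuation_le_one _
    rwa [map_intCast] at h1
  have hd : P.valuation K (((16 * (4 * CD.A ^ 3 + 27 * CD.B ^ 2) : ℤ)) : K) = 1 := by
    refine le_antisymm (hle _) (not_lt.1 fun hlt => hc ?_)
    have h1 : (((16 * (4 * CD.A ^ 3 + 27 * CD.B ^ 2) : ℤ)) : 𝓞 K) ∈ P.asIdeal := by
      have h2 : P.valuation K (algebraMap (𝓞 K) K ((16 * (4 * CD.A ^ 3 + 27 * CD.B ^ 2) : ℤ) : 𝓞 K)) < 1 := by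
        rw [map_intCast]
        exact hlt
      exact (P.valuation_lt_one_iff_mem _).1 h2
    obtain ⟨c, hc⟩ := CD.bad_dvd
    have h3 : (((16 * (4 * CD.A ^ 3 + 27 * CD.B ^ 2) : ℤ)) : 𝓞 K) =
        (2 : 𝓞 K) ^ 4 * ((4 * CD.A ^ 3 + 27 * CD.B ^ 2 : ℤ) : 𝓞 K) := by
      push_cast
      ring
    have h4 : ((CD.bad : ℤ) : 𝓞 K) = (2 : 𝓞 K) * (3 * CD.nm * (CD.tr ^ 2 - 4 * CD.nm) * c : ℤ) *
        ((4 * CD.A ^ 3 + 27 * CD.B ^ 2 : ℤ) : 𝓞 K) := by
      rw [hc]
      push_cast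
      ring
    rw [h3] at h1
    rw [h4]
    rcases P.isPrime.mem_or_mem h1 with h5 | h5
    · have h6 := P.isPrime.mem_of_pow_mem _ h5
      exact Ideal.mul_mem_right _ _ (Ideal.mul_mem_right _ _ h6)
    · exact Ideal.mul_mem_left _ _ h5
  rw [one_smul]
  refine ⟨⟨?_, ?_, ?_, ?_, ?_⟩, ?_⟩
  · exact (map_zero (P.valuation K)).trans_le zero_le
  · exact (map_zero (P.valuation K)).trans_le zero_le
  · exact (map_zero (P.valuation K)).trans_le zero_le
  · exact hle _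
  · exact hle _
  · have e : (E K).Δ = -(((16 * (4 * CD.A ^ 3 + 27 * CD.B ^ 2) : ℤ)) : K) := by
      simp only [E, WeierstrassCurve.Δ, WeierstrassCurve.b₂, WeierstrassCurve.b₄,
        WeierstrassCurve.b₆, WeierstrassCurve.b₈]
      push_cast
      ring
    rw [e, Valuation.map_neg, hd]

end

/-- the Hecke datum attached to the curve -/
class HC where
  /-- the conductor -/
  f : 𝓞 K
  /-- the character -/
  ps : Ideal (𝓞 K) → 𝓞 K
  hd : HDat f ps

/-- the character -/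
abbrev ps [HC] (I : Ideal (𝓞 K)) : 𝓞 K := HC.ps I

/-- the Hecke character over `F` -/
noncomputable def psi [HC] (F : Type*) [Field F] [NumberField F] [Algebra K F]
    (I : Ideal (𝓞 F)) : 𝓞 K := ps (Ideal.relNorm (𝓞 K) I)

theorem nat_not_isUnit {r : ℕ} (hr : 3 ≤ r) : ¬ IsUnit (r : 𝓞 K) := by
  intro h
  obtain ⟨a, ha⟩ := h.exists_left_inv
  obtain ⟨m, n, rfl⟩ := exists_coords a
  have e : ((m * r : ℤ) : 𝓞 K) + ((n * r : ℤ) : 𝓞 K) * ta =
      ((1 : ℤ) : 𝓞 K) + ((0 : ℤ) : 𝓞 K) * ta := by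
    push_cast
    linear_combination ha
  obtain ⟨h1, -⟩ := coords_inj e
  have h2 : (r : ℤ) ∣ 1 := ⟨m, by linear_combination -h1⟩
  have h3 := Int.le_of_dvd one_pos h2
  omega

theorem HDat.not_isUnit {f : 𝓞 K} {ps : Ideal (𝓞 K) → 𝓞 K} (h : HDat f ps) : ¬ IsUnit f := by
  obtain ⟨r, hr, hrf⟩ := h.big
  exact fun h => nat_not_isUnit hr (isUnit_of_dvd_unit hrf h)

/-- a unit congruent to `1` modulo `f` is `1` -/
theorem HDat.inj {f : 𝓞 K} {ps : Ideal (𝓞 K) → 𝓞 K} (h : HDat f ps) (u : (𝓞 K)ˣ)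
    (hu : f ∣ (u : 𝓞 K) - 1) : u = 1 := by
  have h1 := h.ray _ hu
  rw [Ideal.span_singleton_eq_top.2 u.isUnit, ← Ideal.one_eq_top, h.one] at h1
  exact Units.ext h1.symm

section
variable [HC]

theorem f_not_isUnit : ¬ IsUnit (HC.f : 𝓞 K) := HC.hd.not_isUnit

/-- a prime not dividing `f` is prime to `f` -/
theorem ps_span' (P : HeightOneSpectrum (𝓞 K)) (h : HC.f ∉ P.asIdeal) :
    Ideal.span {ps P.asIdeal} = P.asIdeal := by
  refine HC.hd.span _ ?_
  rw [Ideal.isCoprime_iff_sup_eq]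
  by_contra hc
  have h1 : P.asIdeal = P.asIdeal ⊔ Ideal.span {HC.f} :=
    P.isMaximal.eq_of_le hc le_sup_left
  refine h ?_
  rw [h1]
  exact Ideal.mem_sup_right (Ideal.mem_span_singleton_self _)

/-- a prime not dividing `bad` is prime to `f` -/
theorem ps_span (P : HeightOneSpectrum (𝓞 K)) (h : ((CD.bad : ℤ) : 𝓞 K) ∉ P.asIdeal) :
    Ideal.span {ps P.asIdeal} = P.asIdeal :=
  ps_span' P fun hf => h (HC.hd.good P hf)

theorem ps_pow (I : Ideal (𝓞 K)) (n : ℕ) : ps (I ^ n) = ps I ^ n := by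
  induction n with
  | zero => rw [pow_zero, pow_zero]; exact HC.hd.one
  | succ n ih => rw [pow_succ, pow_succ, ← ih]; exact HC.hd.mul _ _

/-- the zero ideal -/
theorem ps_bot : ps (⊥ : Ideal (𝓞 K)) = 0 := by
  refine HC.hd.zero _ ?_
  rw [Ideal.isCoprime_iff_sup_eq, bot_sup_eq, Ideal.span_singleton_eq_top]
  exact f_not_isUnit

variable (F : Type*) [Field F] [NumberField F] [Algebra K F]

theorem psi_one : psi F 1 = 1 := by
  rw [psi, map_one]
  exact HC.hd.one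

theorem psi_mul (I J : Ideal (𝓞 F)) : psi F (I * J) = psi F I * psi F J := by
  rw [psi, map_mul]
  exact HC.hd.mul _ _

theorem psi_zero : psi F 0 = 0 := by
  rw [psi, map_zero]
  exact ps_bot

/-- the character at a place in terms of the place below -/
theorem psi_pow (v : HeightOneSpectrum (𝓞 F)) :
    psi F v.asIdeal = ps (v.under (𝓞 K)).asIdeal ^ v.asIdeal.inertiaDeg (𝓞 K) := by
  have h0 : (v.under (𝓞 K)).asIdeal.IsMaximal := (v.under (𝓞 K)).isMaximal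
  have h1 : v.asIdeal.LiesOver (v.under (𝓞 K)).asIdeal := ⟨rfl⟩
  have hrel : Ideal.relNorm (𝓞 K) v.asIdeal =
      (v.under (𝓞 K)).asIdeal ^ v.asIdeal.inertiaDeg (𝓞 K) :=
    Ideal.relNorm_eq_pow_of_isMaximal v.asIdeal (v.under (𝓞 K)).asIdeal
  rw [psi, hrel, ps_pow]

end

end Pool.Agent.Lib.MP_1a91b9_nuX
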