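import Pool.Agent.Lib.MP_1a91b9_nuT.Base

/-!
# The elliptic curve of `CD`: common definitions
-/

set_option autoImplicit false
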